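import Mathlib

/-!
# Alternating orderings of points and directed lines

Let `P` be a set of `n` points and `L` a set of `n` directed lines in general position such that for every
`X ⊆ P` at least `|X| - 1` of the lines meet the convex hull of `X`. Then there is an ordering
`p_1, l_1, ..., p_n, l_n` such that for `i < n` the point `p_i` is on the left and `p_{i+1}` is on the right of
`l_i`; in particular `l_i` separates `p_i` and `p_{i+1}`.

Proof. Only the relation `A p l` (`p` is on the left of `l`) matters. The hull condition implies, by Hall's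
theorem and an uncrossing argument, that for some line `l₀` there are bijections `s, r : L → P` such that
`s l` is on the left and `r l` is on the right of `l` for every `l ≠ l₀`. Among all such pairs choose one for
which the cycle of `l₀` in the permutation `τ = s⁻¹ r` of `L` is as long as possible. If it is not the
whole of `L`, then exchanging two values of `s` or two values of `r` gives a pair with a longer cycle.
-/

set_option autoImplicit false

open Finset Equiv

namespace Pool.Agent.Results.MP_719c39_co.AlternatingOrdering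

/-- A directed line of the plane, given by one of its points and its direction. -/
structure DirectedLine where
  base : ℝ × ℝ
  dir : ℝ × ℝ
  dir_ne : dir ≠ 0

/-- The determinant of the direction of `l` and the vector from the base point of `l` to `x`. -/
def DirectedLine.side (l : DirectedLine) (x : ℝ × ℝ) : ℝ :=
  l.dir.1 * (x.2 - l.base.2) - l.dir.2 * (x.1 - l.base.1)

/-- The set of the points of the line. -/
def DirectedLine.carrier (l : DirectedLine) : Set (ℝ × ℝ) := {x | l.side x = 0}

/-- The open half-plane on the left of the directed line. -/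
def DirectedLine.left (l : DirectedLine) : Set (ℝ × ℝ) := {x | 0 < l.side x}

/-- The open half-plane on the right of the directed line. -/
def DirectedLine.right (l : DirectedLine) : Set (ℝ × ℝ) := {x | l.side x < 0}

/-! ### Cycles of permutations -/

section perm

variable {L : Type*} [DecidableEq L] [Fintype L]

/-- Multiplying by a transposition of elements of different cycles joins the cycles. -/
theorem join (τ : Perm L) (a b : L) (hab : ¬ τ.SameCycle a b) :
    (∀ x, τ.SameCycle a x → (swap a b * τ).SameCycle a x) ∧ (swap a b * τ).SameCycle a b := by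
  set τ' := swap a b * τ with hτ'
  have happ : ∀ x, τ' x = swap a b (τ x) := fun x => rfl
  have h1 : ∀ k : ℕ, τ'.SameCycle a ((τ ^ k) a) := by
    intro k
    induction k with
    | zero => exact Perm.SameCycle.refl _ _
    | succ k ih =>
      by_cases h : τ ((τ ^ k) a) = a
      · rw [pow_succ', Perm.mul_apply, h]
      · have hb : τ ((τ ^ k) a) ≠ b := by
          intro hb
          apply hab
          rw [← hb, ← Perm.mul_apply, ← pow_succ']
          exact ⟨((k + 1 : ℕ) : ℤ), by rw [zpow_natCast]⟩
        rw [pow_succ', Perm.mul_apply]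
        have : τ' ((τ ^ k) a) = τ ((τ ^ k) a) := by
          rw [happ, swap_apply_of_ne_of_ne h hb]
        rw [← this]
        exact (Perm.sameCycle_apply_right).mpr ih
  have h2 : ∀ k : ℕ, τ'.SameCycle b ((τ ^ k) b) := by
    intro k
    induction k with
    | zero => exact Perm.SameCycle.refl _ _
    | succ k ih =>
      by_cases h : τ ((τ ^ k) b) = b
      · rw [pow_succ', Perm.mul_apply, h]
      · have hb : τ ((τ ^ k) b) ≠ a := by
          intro hb
          apply hab
          apply Perm.SameCycle.symm
          rw [← hb, ← Perm.mul_apply, ← pow_succ']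
          exact ⟨((k + 1 : ℕ) : ℤ), by rw [zpow_natCast]⟩
        rw [pow_succ', Perm.mul_apply]
        have : τ' ((τ ^ k) b) = τ ((τ ^ k) b) := by
          rw [happ, swap_apply_of_ne_of_ne hb h]
        rw [← this]
        exact (Perm.sameCycle_apply_right).mpr ih
  constructor
  · intro x hx
    obtain ⟨k, -, hk⟩ := hx.exists_pow_eq'
    rw [← hk]
    exact h1 k
  · have hb : τ.SameCycle b (τ.symm b) :=
      Perm.sameCycle_symm_apply_right.mpr (Perm.SameCycle.refl _ _)
    obtain ⟨k, -, hk⟩ := hb.exists_pow_eq'
    have h3 := h2 k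
    rw [hk] at h3
    have h4 : τ' (τ.symm b) = a := by
      rw [happ, Equiv.apply_symm_apply, swap_apply_right]
    have h5 : τ'.SameCycle b a := by
      rw [← h4]
      exact (Perm.sameCycle_apply_right).mpr h3
    exact h5.symm

end perm

/-! ### The two bijections -/

section hall

variable {P L : Type*} [DecidableEq L] [Fintype L] [DecidableEq P] [Fintype P]

/-- the points related to some line of `K` -/
def nb (t : L → Finset P) (K : Finset L) : Finset P := K.biUnion t

omit [Fintype L] [Fintype P] in
theorem inter_bad (t : L → Finset P) (h : ∀ K : Finset L, K.card ≤ (nb t K).card + 1)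
    {K K' : Finset L} (hK : (nb t K).card < K.card) (hK' : (nb t K').card < K'.card) :
    (nb t (K ∩ K')).card < (K ∩ K').card := by
  have h1 : nb t (K ∩ K') ⊆ nb t K ∩ nb t K' := by
    intro p hp
    simp only [nb, mem_biUnion, mem_inter] at hp ⊢
    obtain ⟨l, ⟨hl, hl'⟩, hp⟩ := hp
    exact ⟨⟨l, hl, hp⟩, l, hl', hp⟩
  have h2 : nb t (K ∪ K') = nb t K ∪ nb t K' := by
    ext p
    simp only [nb, mem_biUnion, mem_union]
    constructor
    · rintro ⟨l, hl | hl, hp⟩
      · exact Or.inl ⟨l, hl, hp⟩
      · exact Or.inr ⟨l, hl, hp⟩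
    · rintro (⟨l, hl, hp⟩ | ⟨l, hl, hp⟩)
      · exact ⟨l, Or.inl hl, hp⟩
      · exact ⟨l, Or.inr hl, hp⟩
  have h3 := card_le_card h1
  have h4 := card_union_add_card_inter (nb t K) (nb t K')
  have h5 := card_union_add_card_inter K K'
  have h6 := h (K ∪ K')
  rw [h2] at h6
  omega

omit [Fintype P] in
/-- Either there is no bad set, or there is a smallest one. -/
theorem min_bad (t : L → Finset P) (h : ∀ K : Finset L, K.card ≤ (nb t K).card + 1) :
    (∀ K : Finset L, K.card ≤ (nb t K).card) ∨
      ∃ K₁ : Finset L, (nb t K₁).card < K₁.card ∧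
        ∀ K : Finset L, (nb t K).card < K.card → K₁ ⊆ K := by
  by_cases hb : ∀ K : Finset L, K.card ≤ (nb t K).card
  · exact Or.inl hb
  right
  push Not at hb
  obtain ⟨K, hK⟩ := hb
  have hne : (univ.filter (fun K : Finset L => (nb t K).card < K.card)).Nonempty :=
    ⟨K, by simpa using hK⟩
  obtain ⟨K₁, hK₁, hmin⟩ := exists_min_image _ Finset.card hne
  rw [mem_filter] at hK₁
  refine ⟨K₁, hK₁.2, fun K' hK' => ?_⟩
  have h1 := inter_bad t h hK₁.2 hK'
  have h2 := hmin (K₁ ∩ K') (by simpa using h1)
  have h3 : K₁ ∩ K' = K₁ := eq_of_subset_of_card_le inter_subset_left h2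
  rw [← h3]
  exact inter_subset_right

/-- A system of distinct representatives for all the lines except `l₀` extends to a bijection. -/
theorem extend (t : L → Finset P) (hc : Fintype.card L = Fintype.card P) (l₀ : L)
    (h : ∀ K : Finset L, l₀ ∉ K → K.card ≤ (nb t K).card) :
    ∃ s : L ≃ P, ∀ l, l ≠ l₀ → s l ∈ t l := by
  classical
  have hall := (Finset.all_card_le_biUnion_card_iff_exists_injective
    (fun l : {l : L // l ≠ l₀} => t l.1)).mp (by
      intro K
      have h1 := h (K.map (Function.Embedding.subtype _)) (by simp)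
      rw [card_map] at h1
      refine h1.trans (card_le_card ?_)
      intro p hp
      simp only [nb, mem_biUnion, mem_map, Function.Embedding.coe_subtype] at hp ⊢
      obtain ⟨l, ⟨⟨l', hl', rfl⟩, hp⟩⟩ := hp
      exact ⟨l', hl', hp⟩)
  obtain ⟨f, hf, hft⟩ := hall
  have hx : ∃ x : P, ∀ l, f l ≠ x := by
    by_contra hcon
    push Not at hcon
    have hsurj : Function.Surjective f := fun x => hcon x
    have h1 := Fintype.card_le_of_surjective f hsurj
    have h2 : Fintype.card {l : L // l ≠ l₀} < Fintype.card L :=
      Fintype.card_subtype_lt (x := l₀) (by simp)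
    omega
  obtain ⟨x, hx⟩ := hx
  let g : L → P := fun l => if h : l ≠ l₀ then f ⟨l, h⟩ else x
  have hg : Function.Injective g := by
    intro l l' hll
    simp only [g] at hll
    by_cases h1 : l ≠ l₀ <;> by_cases h2 : l' ≠ l₀
    · rw [dif_pos h1, dif_pos h2] at hll
      exact congrArg Subtype.val (hf hll)
    · rw [dif_pos h1, dif_neg h2] at hll
      exact absurd hll (hx _)
    · rw [dif_neg h1, dif_pos h2] at hll
      exact absurd hll.symm (hx _)
    · push Not at h1 h2
      rw [h1, h2]
  have hbij : Function.Bijective g := (Fintype.bijective_iff_injective_and_card g).mpr ⟨hg, hc⟩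
  refine ⟨Equiv.ofBijective g hbij, fun l hl => ?_⟩
  rw [Equiv.ofBijective_apply]
  simp only [g]
  rw [dif_pos hl]
  exact hft ⟨l, hl⟩

open Classical in
/-- the two bijections -/
theorem bijections (A : P → L → Prop) (n : ℕ) (hn : 0 < n) (hP : Fintype.card P = n)
    (hL : Fintype.card L = n)
    (hcut : ∀ X : Finset P, X.card - 1 ≤
      (univ.filter (fun l : L => (∃ x ∈ X, A x l) ∧ ∃ y ∈ X, ¬ A y l)).card) :
    ∃ (l₀ : L) (s r : L ≃ P), ∀ l, l ≠ l₀ → A (s l) l ∧ ¬ A (r l) l := by
  set tl : L → Finset P := fun l => univ.filter (fun p => A p l) with htl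
  set tr : L → Finset P := fun l => univ.filter (fun p => ¬ A p l) with htr
  have hcard : ∀ X : Finset P, X.card + Xᶜ.card = n := by
    intro X
    rw [card_add_card_compl, hP]
  -- lines outside of a set `K` none of whose lines cuts `X`
  have hout : ∀ (X : Finset P) (K : Finset L),
      (∀ l ∈ K, (∀ x ∈ X, A x l) ∨ (∀ x ∈ X, ¬ A x l)) → X.card - 1 + K.card ≤ n := by
    intro X K hK
    have h1 : univ.filter (fun l : L => (∃ x ∈ X, A x l) ∧ ∃ y ∈ X, ¬ A y l) ⊆ Kᶜ := by
      intro l hl
      rw [mem_filter] at hl
      rw [mem_compl]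
      intro hlK
      obtain ⟨-, ⟨x, hx, hxl⟩, y, hy, hyl⟩ := hl
      rcases hK l hlK with h | h
      · exact hyl (h y hy)
      · exact h x hx hxl
    have h2 := card_le_card h1
    have h3 := hcut X
    have h4 : K.card + Kᶜ.card = n := by rw [card_add_card_compl, hL]
    omega
  have hl : ∀ K : Finset L, K.card ≤ (nb tl K).card + 1 := by
    intro K
    have h1 := hout (nb tl K)ᶜ K (by
      intro l hl
      right
      intro x hx hA
      rw [mem_compl] at hx
      apply hx
      simp only [nb, mem_biUnion]
      exact ⟨l, hl, by simp [htl, hA]⟩)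
    have h2 := hcard (nb tl K)
    have h3 : K.card ≤ n := by rw [← hL]; exact card_le_univ K
    omega
  have hr : ∀ K : Finset L, K.card ≤ (nb tr K).card + 1 := by
    intro K
    have h1 := hout (nb tr K)ᶜ K (by
      intro l hl
      left
      intro x hx
      by_contra hA
      rw [mem_compl] at hx
      apply hx
      simp only [nb, mem_biUnion]
      exact ⟨l, hl, by simp [htr, hA]⟩)
    have h2 := hcard (nb tr K)
    have h3 : K.card ≤ n := by rw [← hL]; exact card_le_univ K
    omega
  -- a line that belongs to all bad sets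
  have hl₀ : ∃ l₀ : L, (∀ K : Finset L, l₀ ∉ K → K.card ≤ (nb tl K).card) ∧
      (∀ K : Finset L, l₀ ∉ K → K.card ≤ (nb tr K).card) := by
    have hne : Nonempty L := Fintype.card_pos_iff.mp (by omega)
    rcases min_bad tl hl with h1 | ⟨K₁, hb1, hm1⟩ <;> rcases min_bad tr hr with h2 | ⟨K₂, hb2, hm2⟩
    · obtain ⟨l⟩ := hne
      exact ⟨l, fun K _ => h1 K, fun K _ => h2 K⟩
    · have : K₂.Nonempty := by
        rw [← card_pos]; omega
      obtain ⟨l, hl⟩ := this
      refine ⟨l, fun K _ => h1 K, fun K hK => ?_⟩
      by_contra hcon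
      push Not at hcon
      exact hK (hm2 K hcon hl)
    · have : K₁.Nonempty := by
        rw [← card_pos]; omega
      obtain ⟨l, hl⟩ := this
      refine ⟨l, fun K hK => ?_, fun K _ => h2 K⟩
      by_contra hcon
      push Not at hcon
      exact hK (hm1 K hcon hl)
    · have hnd : (K₁ ∩ K₂).Nonempty := by
        by_contra hcon
        rw [not_nonempty_iff_eq_empty] at hcon
        have hdisj : Disjoint K₁ K₂ := by rwa [disjoint_iff_inter_eq_empty]
        have hcu := card_union_of_disjoint hdisj
        set Y := (nb tl K₁ ∪ nb tr K₂)ᶜ with hY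
        have h1 := hout Y (K₁ ∪ K₂) (by
          intro l hl
          rw [mem_union] at hl
          rcases hl with hl | hl
          · right
            intro x hx hA
            rw [hY, mem_compl, mem_union, not_or] at hx
            apply hx.1
            simp only [nb, mem_biUnion]
            exact ⟨l, hl, by simp [htl, hA]⟩
          · left
            intro x hx
            by_contra hA
            rw [hY, mem_compl, mem_union, not_or] at hx
            apply hx.2
            simp only [nb, mem_biUnion]
            exact ⟨l, hl, by simp [htr, hA]⟩)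
        have h2 := card_union_le (nb tl K₁) (nb tr K₂)
        have h3 := hcard (nb tl K₁ ∪ nb tr K₂)
        have h4 : (K₁ ∪ K₂).card ≤ n := by rw [← hL]; exact card_le_univ _
        rw [hcu] at h1 h4
        have h5 : Y.card = (nb tl K₁ ∪ nb tr K₂)ᶜ.card := by rw [hY]
        omega
      obtain ⟨l, hl⟩ := hnd
      rw [mem_inter] at hl
      refine ⟨l, fun K hK => ?_, fun K hK => ?_⟩
      · by_contra hcon
        push Not at hcon
        exact hK (hm1 K hcon hl.1)
      · by_contra hcon
        push Not at hcon
        exact hK (hm2 K hcon hl.2)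
  obtain ⟨l₀, h1, h2⟩ := hl₀
  obtain ⟨s, hs⟩ := extend tl (hL.trans hP.symm) l₀ h1
  obtain ⟨r, hr⟩ := extend tr (hL.trans hP.symm) l₀ h2
  refine ⟨l₀, s, r, fun l hl => ⟨?_, ?_⟩⟩
  · simpa [htl] using hs l hl
  · simpa [htr] using hr l hl

omit [DecidableEq L] [DecidableEq P] in
open Classical in
/-- the combinatorial core -/
theorem ordering (A : P → L → Prop) (n : ℕ) (hP : Fintype.card P = n) (hL : Fintype.card L = n)
    (hcut : ∀ X : Finset P, X.card - 1 ≤
      (univ.filter (fun l : L => (∃ x ∈ X, A x l) ∧ ∃ y ∈ X, ¬ A y l)).card) :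
    ∃ (p : Fin n → P) (l : Fin n → L), Function.Bijective p ∧ Function.Bijective l ∧
      ∀ (i : ℕ) (h : i + 1 < n), A (p ⟨i, by omega⟩) (l ⟨i, by omega⟩) ∧
        ¬ A (p ⟨i + 1, h⟩) (l ⟨i, by omega⟩) := by
  rcases Nat.eq_zero_or_pos n with hn | hn
  · subst hn
    have hP' : IsEmpty P := Fintype.card_eq_zero_iff.mp hP
    have hL' : IsEmpty L := Fintype.card_eq_zero_iff.mp hL
    exact ⟨fun i => i.elim0, fun i => i.elim0, ⟨fun i => i.elim0, fun x => (hP'.false x).elim⟩,
      ⟨fun i => i.elim0, fun x => (hL'.false x).elim⟩, fun i h => by omega⟩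
  obtain ⟨l₀, s₀, r₀, h₀⟩ := bijections A n hn hP hL hcut
  -- choose the pair with the longest cycle
  set good : Finset ((L ≃ P) × (L ≃ P)) :=
    univ.filter (fun q => ∀ l, l ≠ l₀ → A (q.1 l) l ∧ ¬ A (q.2 l) l) with hgood
  have hne : good.Nonempty := ⟨(s₀, r₀), by rw [hgood, mem_filter]; exact ⟨mem_univ _, h₀⟩⟩
  obtain ⟨⟨s, r⟩, hsr, hmax⟩ := exists_max_image good
    (fun q => (univ.filter (fun l => Perm.SameCycle (q.2.trans q.1.symm) l₀ l)).card) hne
  rw [hgood, mem_filter] at hsr
  have hsr := hsr.2
  simp only at hsr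
  set τ : Perm L := r.trans s.symm with hτ
  have hsτ : ∀ x, s (τ x) = r x := fun x => by
    rw [hτ, Equiv.trans_apply, Equiv.apply_symm_apply]
  have bigger : ∀ (s' r' : L ≃ P) (l' : L), (∀ l, l ≠ l₀ → A (s' l) l ∧ ¬ A (r' l) l) →
      ¬ τ.SameCycle l₀ l' → (∀ x, τ.SameCycle l₀ x → Perm.SameCycle (r'.trans s'.symm) l₀ x) →
      Perm.SameCycle (r'.trans s'.symm) l₀ l' → False := by
    intro s' r' l' hok hl' hsub hin
    have h1 : (univ.filter (fun l => Perm.SameCycle (r'.trans s'.symm) l₀ l)).card ≤
        (univ.filter (fun l => τ.SameCycle l₀ l)).card :=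
      hmax (s', r') (by rw [hgood, mem_filter]; exact ⟨mem_univ _, hok⟩)
    have h2 : univ.filter (fun l => τ.SameCycle l₀ l) ⊂
        univ.filter (fun l => Perm.SameCycle (r'.trans s'.symm) l₀ l) := by
      rw [ssubset_iff_subset_ne]
      constructor
      · intro x hx
        rw [mem_filter] at hx ⊢
        exact ⟨mem_univ _, hsub x hx.2⟩
      · intro heq
        have : l' ∈ univ.filter (fun l => Perm.SameCycle (r'.trans s'.symm) l₀ l) := by
          rw [mem_filter]; exact ⟨mem_univ _, hin⟩
        rw [← heq, mem_filter] at this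
        exact hl' this.2
    have h3 := card_lt_card h2
    omega
  have notS : ∀ l l', τ.SameCycle l₀ l → ¬ τ.SameCycle l₀ l' → (l ≠ l₀ → A (s l') l) →
      ¬ A (s l) l' := by
    intro l l' hl hl' h1 h2
    have hl'0 : l' ≠ l₀ := by rintro rfl; exact hl' (Perm.SameCycle.refl _ _)
    have hnot : ¬ τ.SameCycle l l' := fun h => hl' (hl.trans h)
    obtain ⟨j1, j2⟩ := join τ l l' hnot
    have htau : r.trans (((swap l l').trans s).symm) = swap l l' * τ := by
      ext x
      simp [hτ]
    apply bigger ((swap l l').trans s) r l' _ hl'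
    · rw [htau]
      intro x hx
      exact (j1 l₀ hl.symm).symm.trans (j1 x (hl.symm.trans hx))
    · rw [htau]
      exact (j1 l₀ hl.symm).symm.trans j2
    · intro x hx
      refine ⟨?_, (hsr x hx).2⟩
      rw [Equiv.trans_apply]
      by_cases hxl : x = l
      · subst hxl
        rw [swap_apply_left]
        exact h1 hx
      · by_cases hxl' : x = l'
        · subst hxl'
          rw [swap_apply_right]
          exact h2
        · rw [swap_apply_of_ne_of_ne hxl hxl']
          exact (hsr x hx).1
  have notR : ∀ l l', τ.SameCycle l₀ l → ¬ τ.SameCycle l₀ l' → (l ≠ l₀ → ¬ A (r l') l) →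
      A (r l) l' := by
    intro l l' hl hl' h1
    by_contra h2
    have hl'0 : l' ≠ l₀ := by rintro rfl; exact hl' (Perm.SameCycle.refl _ _)
    have hτl : τ.SameCycle l₀ (τ l) := Perm.sameCycle_apply_right.mpr hl
    have hτl' : ¬ τ.SameCycle l₀ (τ l') := fun h => hl' (Perm.sameCycle_apply_right.mp h)
    have hnot : ¬ τ.SameCycle (τ l) (τ l') := fun h => hτl' (hτl.trans h)
    obtain ⟨j1, j2⟩ := join τ (τ l) (τ l') hnot
    have htau : ((swap l l').trans r).trans s.symm = swap (τ l) (τ l') * τ := by
      have : swap (τ l) (τ l') * τ = τ * swap l l' := by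
        rw [Equiv.swap_apply_apply]
        simp
      rw [this]
      ext x
      simp [hτ]
    apply bigger s ((swap l l').trans r) (τ l') _ hτl'
    · rw [htau]
      intro x hx
      exact (j1 l₀ hτl.symm).symm.trans (j1 x (hτl.symm.trans hx))
    · rw [htau]
      exact (j1 l₀ hτl.symm).symm.trans j2
    · intro x hx
      refine ⟨(hsr x hx).1, ?_⟩
      rw [Equiv.trans_apply]
      by_cases hxl : x = l
      · subst hxl
        rw [swap_apply_left]
        exact h1 hx
      · by_cases hxl' : x = l'
        · subst hxl'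
          rw [swap_apply_right]
          exact h2
        · rw [swap_apply_of_ne_of_ne hxl hxl']
          exact (hsr x hx).2
  have hmem : ∀ k : ℕ, τ.SameCycle l₀ ((τ ^ k) l₀) := fun k => ⟨(k : ℤ), by rw [zpow_natCast]⟩
  have hiter : ∀ k : ℕ, (τ ^ k) l₀ = τ^[k] l₀ := fun k => by rw [Perm.iterate_eq_pow]
  have hper : 0 < Function.minimalPeriod τ l₀ := by
    apply Function.minimalPeriod_pos_of_mem_periodicPts
    refine ⟨orderOf τ, orderOf_pos τ, ?_⟩
    show τ^[orderOf τ] l₀ = l₀
    rw [← hiter, pow_orderOf_eq_one, Perm.one_apply]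
  have hminp : ∀ j : ℕ, 0 < j → j < Function.minimalPeriod τ l₀ → (τ ^ j) l₀ ≠ l₀ := by
    intro j h1 h2 h3
    rw [hiter] at h3
    exact Function.not_isPeriodicPt_of_pos_of_lt_minimalPeriod (by omega) h2 h3
  have hall : ∀ l, τ.SameCycle l₀ l := by
    intro l'
    by_contra hl'
    have claim : ∀ k : ℕ, k < Function.minimalPeriod τ l₀ → ∀ l', ¬ τ.SameCycle l₀ l' →
        A (r ((τ ^ k) l₀)) l' := by
      intro k
      induction k with
      | zero =>
        intro _ l' hl'
        exact notR l₀ l' (Perm.SameCycle.refl _ _) hl' (fun h => absurd rfl h)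
      | succ k ih =>
        intro hk l' hl'
        have ih := ih (by omega)
        have hsm : s ((τ ^ (k + 1)) l₀) = r ((τ ^ k) l₀) := by
          rw [pow_succ', Perm.mul_apply, hsτ]
        apply notR _ l' (hmem (k + 1)) hl'
        intro _ hA
        have h3 : ¬ τ.SameCycle l₀ (τ l') := fun h => hl' (Perm.sameCycle_apply_right.mp h)
        have h4 := ih (τ l') h3
        rw [← hsm] at h4
        have h5 : A (s (τ l')) ((τ ^ (k + 1)) l₀) := by rw [hsτ]; exact hA
        exact notS _ _ (hmem (k + 1)) h3 (fun _ => h5) h4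
    obtain ⟨K, hK⟩ : ∃ K, Function.minimalPeriod τ l₀ = K + 1 := ⟨_, (Nat.succ_pred_eq_of_pos hper).symm⟩
    have h1 := claim K (by omega) l' hl'
    have h2 : s l₀ = r ((τ ^ K) l₀) := by
      rw [← hsτ, ← Perm.mul_apply, ← pow_succ', hiter, ← hK, Function.iterate_minimalPeriod]
    rw [← h2] at h1
    exact notS l₀ l' (Perm.SameCycle.refl _ _) hl' (fun h => absurd rfl h) h1
  -- the cycle has length `n`
  have hinj : Function.Injective
      (fun i : Fin (Function.minimalPeriod τ l₀) => (τ ^ (i : ℕ)) l₀) := by
    intro i j hij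
    simp only [hiter] at hij
    exact Fin.ext ((Function.iterate_eq_iterate_iff_of_lt_minimalPeriod i.2 j.2).mp hij)
  have hsurj : Function.Surjective
      (fun i : Fin (Function.minimalPeriod τ l₀) => (τ ^ (i : ℕ)) l₀) := by
    intro y
    obtain ⟨k, -, hk⟩ := (hall y).exists_pow_eq'
    refine ⟨⟨k % Function.minimalPeriod τ l₀, Nat.mod_lt _ hper⟩, ?_⟩
    simp only
    rw [hiter, Function.iterate_mod_minimalPeriod_eq, ← hiter, hk]
  have hcard : Function.minimalPeriod τ l₀ = n := by
    have := Fintype.card_of_bijective ⟨hinj, hsurj⟩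
    rw [Fintype.card_fin, hL] at this
    exact this
  set f : Fin n → L := fun i => (τ ^ ((i : ℕ) + 1)) l₀ with hf
  have hfinj : Function.Injective f := by
    intro i j hij
    simp only [hf, pow_succ', Perm.mul_apply] at hij
    have h1 := τ.injective hij
    simp only [hiter] at h1
    exact Fin.ext ((Function.iterate_eq_iterate_iff_of_lt_minimalPeriod
      (by rw [hcard]; exact i.2) (by rw [hcard]; exact j.2)).mp h1)
  have hfbij : Function.Bijective f :=
    (Fintype.bijective_iff_injective_and_card f).mpr ⟨hfinj, by rw [Fintype.card_fin, hL]⟩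
  refine ⟨fun i => s (f i), f, s.bijective.comp hfbij, hfbij, ?_⟩
  intro i h
  have hne : f ⟨i, by omega⟩ ≠ l₀ := hminp (i + 1) (by omega) (by rw [hcard]; exact h)
  have h1 := hsr _ hne
  refine ⟨h1.1, ?_⟩
  have h2 : s (f ⟨i + 1, h⟩) = r (f ⟨i, by omega⟩) := by
    simp only [hf]
    rw [pow_succ' τ (i + 1), Perm.mul_apply, hsτ]
  simp only
  rw [h2]
  exact h1.2

end hall

/-! ### Half-planes -/

theorem side_comb (l : DirectedLine) {x y : ℝ × ℝ} {a b : ℝ} (hab : a + b = 1) :
    l.side (a • x + b • y) = a * l.side x + b * l.side y := by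
  simp only [DirectedLine.side, Prod.fst_add, Prod.snd_add, Prod.smul_fst, Prod.smul_snd, smul_eq_mul]
  linear_combination (l.dir.1 * l.base.2 - l.dir.2 * l.base.1) * hab

theorem convex_left (l : DirectedLine) : Convex ℝ l.left := by
  intro x hx y hy a b ha hb hab
  show 0 < l.side (a • x + b • y)
  rw [side_comb l hab]
  have hx : 0 < l.side x := hx
  have hy : 0 < l.side y := hy
  rcases ha.eq_or_lt with h | h
  · rw [← h] at hab ⊢
    have : b = 1 := by linarith
    rw [this]; linarith
  · have h1 := mul_pos h hx
    have h2 := mul_nonneg hb hy.le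
    linarith

theorem convex_right (l : DirectedLine) : Convex ℝ l.right := by
  intro x hx y hy a b ha hb hab
  show l.side (a • x + b • y) < 0
  rw [side_comb l hab]
  have hx : l.side x < 0 := hx
  have hy : l.side y < 0 := hy
  rcases ha.eq_or_lt with h | h
  · rw [← h] at hab ⊢
    have : b = 1 := by linarith
    rw [this]; linarith
  · have h1 := mul_neg_of_pos_of_neg h hx
    have h2 := mul_nonpos_of_nonneg_of_nonpos hb hy.le
    linarith

/-- Let `P` be a set of `n` points and `L` a set of `n` directed lines of the plane, no point of `P` lying on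
a line of `L`, such that for every `X ⊆ P` at least `|X| - 1` lines of `L` meet the convex hull of `X`.
Then there is a listing `p 0, l 0, p 1, l 1, ..., p (n - 1), l (n - 1)` of all the points and all the lines,
each used exactly once, such that for every `i < n - 1` the point `p i` is on the left side and the point
`p (i + 1)` is on the right side of `l i`. -/
theorem result (n : ℕ) (P : Finset (ℝ × ℝ)) (L : Finset DirectedLine) (hP : P.card = n)
    (hL : L.card = n) (hgen : ∀ p ∈ P, ∀ l ∈ L, p ∉ l.carrier)
    (hhull : ∀ X ⊆ P, X.card - 1 ≤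
      {l : DirectedLine | l ∈ L ∧ (l.carrier ∩ convexHull ℝ (X : Set (ℝ × ℝ))).Nonempty}.ncard) :
    ∃ (p : Fin n → ℝ × ℝ) (l : Fin n → DirectedLine),
      Function.Injective p ∧ Set.range p = (P : Set (ℝ × ℝ)) ∧
      Function.Injective l ∧ Set.range l = (L : Set DirectedLine) ∧
      ∀ (i : ℕ) (h : i + 1 < n), p ⟨i, by omega⟩ ∈ (l ⟨i, by omega⟩).left ∧
        p ⟨i + 1, h⟩ ∈ (l ⟨i, by omega⟩).right := by
  classical
  have key := ordering (P := {x // x ∈ P}) (L := {l // l ∈ L})
    (fun p l => p.1 ∈ l.1.left) n (by rw [Fintype.card_coe, hP]) (by rw [Fintype.card_coe, hL]) (by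
      intro X
      have h1 := hhull (X.map (Function.Embedding.subtype _)) (by
        intro x hx
        rw [mem_map] at hx
        obtain ⟨y, -, rfl⟩ := hx
        exact y.2)
      rw [card_map] at h1
      refine h1.trans ?_
      rw [← Finset.card_map (Function.Embedding.subtype (fun l => l ∈ L)), ← Set.ncard_coe_finset]
      apply Set.ncard_le_ncard _ (Finset.finite_toSet _)
      rintro l ⟨hl, z, hz, hzX⟩
      rw [Finset.mem_coe, mem_map]
      refine ⟨⟨l, hl⟩, ?_, rfl⟩
      rw [mem_filter]
      refine ⟨mem_univ _, ?_, ?_⟩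
      · -- some point is on the left, otherwise all are on the right
        by_contra hcon
        push Not at hcon
        have hsub : ((X.map (Function.Embedding.subtype _) : Finset (ℝ × ℝ)) : Set (ℝ × ℝ)) ⊆ l.right := by
          intro x hx
          rw [Finset.mem_coe, mem_map] at hx
          obtain ⟨y, hy, rfl⟩ := hx
          have h2 := hcon y hy
          have h3 := hgen y.1 y.2 l hl
          simp only [DirectedLine.left, DirectedLine.carrier, Set.mem_ofPred_eq, not_lt] at h2 h3
          exact lt_of_le_of_ne h2 h3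
        have h4 := convexHull_min hsub (convex_right l) hzX
        have h5 : l.side z = 0 := hz
        have h6 : l.side z < 0 := h4
        linarith
      · by_contra hcon
        push Not at hcon
        have hsub : ((X.map (Function.Embedding.subtype _) : Finset (ℝ × ℝ)) : Set (ℝ × ℝ)) ⊆ l.left := by
          intro x hx
          rw [Finset.mem_coe, mem_map] at hx
          obtain ⟨y, hy, rfl⟩ := hx
          exact hcon y hy
        have h4 := convexHull_min hsub (convex_left l) hzX
        have h5 : l.side z = 0 := hz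
        have h6 : 0 < l.side z := h4
        linarith)
  obtain ⟨p, l, hp, hl, h⟩ := key
  refine ⟨fun i => (p i).1, fun i => (l i).1, Subtype.val_injective.comp hp.1, ?_,
    Subtype.val_injective.comp hl.1, ?_, ?_⟩
  · ext x
    rw [Set.mem_range, Finset.mem_coe]
    constructor
    · rintro ⟨i, rfl⟩; exact (p i).2
    · intro hx
      obtain ⟨i, hi⟩ := hp.2 ⟨x, hx⟩
      exact ⟨i, by rw [hi]⟩
  · ext x
    rw [Set.mem_range, Finset.mem_coe]
    constructor
    · rintro ⟨i, rfl⟩; exact (l i).2
    · intro hx
      obtain ⟨i, hi⟩ := hl.2 ⟨x, hx⟩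
      exact ⟨i, by rw [hi]⟩
  · intro i hi
    obtain ⟨h1, h2⟩ := h i hi
    refine ⟨h1, ?_⟩
    have h3 := hgen _ (p ⟨i + 1, hi⟩).2 _ (l ⟨i, by omega⟩).2
    simp only [DirectedLine.left, DirectedLine.carrier, Set.mem_ofPred_eq, not_lt] at h2 h3
    exact lt_of_le_of_ne h2 h3

end Pool.Agent.Results.MP_719c39_co.AlternatingOrdering
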